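import Pool.Agent.Helper97.CG.Skw

/-!
# The determinant of `Γ` is not the zero polynomial
-/

namespace Pool.Agent.Helper97.CG

open MvPolynomial Matrix Pool.Agent.Helper14.RG

universe u

section Gnz

variable {k : Type u} [Field k] [CharZero k]

lemma gnz_value {b r : ℕ} {ε : k} {d : Bool} (hε : IsSg ε d)
    (JN : Matrix (Fin r ⊕ Fin r) (Fin r ⊕ Fin r) k) (hJ : JNᵀ = ε • JN)
    (K : Matrix (Fin b) (Fin b) k) (hK : Kᵀ = -(ε • K)) (C : Matrix (Fin r ⊕ Fin r) (Fin b) k) :
    bGam ε JN (Sum.elim (Sum.elim (fun p => C p.1 p.2) (fun _ => 0))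
      (Sum.elim (fun _ => 0) (fun p => K p.1.1 p.1.2)) : BI b r d → k) =
      K - (2⁻¹ : k) • (Cᵀ * JN * C) := by
  set β : BI b r d → k := Sum.elim (Sum.elim (fun p => C p.1 p.2) (fun _ => 0))
      (Sum.elim (fun _ => 0) (fun p => K p.1.1 p.1.2)) with hβ
  have hmap : JN.map (algebraMap k k) = JN := by
    ext i j
    rfl
  have hid : algebraMap k k ε = ε := rfl
  have hC : bC β = C := by
    ext i j
    rfl
  have hC' : bC (β ∘ Sum.swap) = 0 := by
    ext i j
    rfl
  have hK0 : skw ε (fun p => β (Sum.inl (Sum.inr p))) = (0 : Matrix (Fin b) (Fin b) k) := by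
    ext i j
    show (if h : i < j ∨ (d = true ∧ i = j) then (0 : k)
      else if h : j < i then -(ε * 0) else 0) = 0
    split_ifs <;> simp
  have hK1 : skw ε (fun p => (β ∘ Sum.swap) (Sum.inl (Sum.inr p))) = K := by
    have := skw_of hε hK
    rw [← this]
    rfl
  have hA : bA ε JN β = -((2⁻¹ : k) • (Cᵀ * JN * C)) := by
    unfold bA
    rw [hmap, hid, hC, hK0, zero_sub]
  have hA' : bA ε JN (β ∘ Sum.swap) = K := by
    unfold bA
    rw [hmap, hid, hC', hK1]
    simp
  unfold bGam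
  rw [hA, hA', hC', hid, Matrix.mul_zero, add_zero, transpose_neg, transpose_smul, transpose_mul,
    transpose_mul, transpose_transpose, hJ, smul_neg, Matrix.smul_mul, Matrix.mul_smul,
    smul_comm (2⁻¹ : k) ε, smul_smul, hε.sq, one_smul, ← sub_eq_add_neg, Matrix.mul_assoc]

/-- the standard skew matrix -/
def sk (R : Type*) [CommRing R] (m : ℕ) : Matrix (Fin m ⊕ Fin m) (Fin m ⊕ Fin m) R :=
  fromBlocks 0 1 (-1) 0

omit [CharZero k] in
lemma sk_transpose (m : ℕ) : (sk k m)ᵀ = -sk k m := by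
  unfold sk
  rw [fromBlocks_transpose, fromBlocks_neg]
  simp

omit [CharZero k] in
lemma sk_det (m : ℕ) : (sk k m).det ≠ 0 := by
  have h : sk k m * -sk k m = 1 := by
    unfold sk
    rw [fromBlocks_neg, fromBlocks_multiply, ← fromBlocks_one]
    simp
  intro h0
  have h1 := congrArg Matrix.det h
  rw [det_mul, h0, zero_mul, det_one] at h1
  exact zero_ne_one h1

lemma exists_vec {r : ℕ} (Jr : Matrix (Fin r) (Fin r) k) (hJ : IsForm 1 Jr) (hr : 0 < r) :
    ∃ c : Fin r ⊕ Fin r → k, c ⬝ᵥ (JR Jr *ᵥ c) ≠ 0 := by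
  have hne : Jr ≠ 0 := by
    intro h0
    apply hJ.det_ne
    have : Nonempty (Fin r) := ⟨⟨0, hr⟩⟩
    rw [h0, det_zero]
  obtain ⟨a, b, hab⟩ : ∃ a b, Jr a b ≠ 0 := by
    by_contra hcon
    push Not at hcon
    apply hne
    ext i j
    exact hcon i j
  refine ⟨Sum.elim (Pi.single a 1) (Pi.single b 1), ?_⟩
  have h1 : Jr b a = Jr a b := by
    have := congrFun (congrFun hJ.symm a) b
    simpa using this
  have h2 : (Sum.elim (Pi.single a 1) (Pi.single b 1) : Fin r ⊕ Fin r → k) ⬝ᵥ
      (JR Jr *ᵥ Sum.elim (Pi.single a 1) (Pi.single b 1)) = 2 * Jr a b := by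
    unfold JR
    rw [fromBlocks_mulVec, sumElim_dotProduct_sumElim]
    simp [h1]
    ring
  rw [h2]
  exact mul_ne_zero two_ne_zero hab

end Gnz

theorem st_GNZ (k : Type u) [Field k] [IsAlgClosed k] [CharZero k] : ST_GNZ k := by
  intro b r ε d Jr hε hJ hb
  have hJN : (JR Jr)ᵀ = ε • JR Jr := by
    unfold JR
    rw [fromBlocks_transpose, fromBlocks_smul, hJ.symm]
    simp
  suffices h : ∃ (K : Matrix (Fin b) (Fin b) k) (C : Matrix (Fin r ⊕ Fin r) (Fin b) k),
      Kᵀ = -(ε • K) ∧ (K - (2⁻¹ : k) • (Cᵀ * JR Jr * C)).det ≠ 0 by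
    obtain ⟨K, C, hK, hdet⟩ := h
    intro h0
    rw [← gnz_value (d := d) hε (JR Jr) hJN K hK C, ← bGam_eval] at hdet
    apply hdet
    have := (MvPolynomial.eval (Sum.elim (Sum.elim (fun p => C p.1 p.2) (fun _ => 0))
      (Sum.elim (fun _ => 0) (fun p => K p.1.1 p.1.2)) : BI b r d → k)).map_det
      (bGam ε (JR Jr) (X : BI b r d → MvPolynomial (BI b r d) k))
    rw [h0, map_zero] at this
    exact this.symm
  rcases hε with ⟨rfl, rfl⟩ | ⟨rfl, rfl⟩
  · refine ⟨1, 0, by simp, by simp⟩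
  · rcases Nat.even_or_odd b with he | ho
    · obtain ⟨m, rfl⟩ := he
      refine ⟨(sk k m).submatrix finSumFinEquiv.symm finSumFinEquiv.symm, 0, ?_, ?_⟩
      · rw [transpose_submatrix, sk_transpose, one_smul]
        rfl
      · rw [Matrix.mul_zero, smul_zero, sub_zero, det_submatrix_equiv_self]
        exact sk_det m
    · have hr : 0 < r := by
        rcases Nat.eq_zero_or_pos r with h0 | h0
        · exact absurd (hb h0 rfl) (Nat.not_even_iff_odd.mpr ho)
        · exact h0
      obtain ⟨c, hc⟩ := exists_vec Jr hJ hr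
      obtain ⟨m, rfl⟩ := ho
      have e : Fin (2 * m + 1) ≃ Unit ⊕ (Fin m ⊕ Fin m) :=
        Fintype.equivOfCardEq (by simp; ring)
      refine ⟨(fromBlocks 0 0 0 (sk k m)).submatrix e e,
        Matrix.of fun i j => Sum.elim (fun _ => c i) (fun _ => 0) (e j), ?_, ?_⟩
      · rw [transpose_submatrix, fromBlocks_transpose, sk_transpose, one_smul]
        ext i j
        simp only [submatrix_apply, Matrix.neg_apply]
        rcases e i with i' | i' <;> rcases e j with j' | j' <;> simp
      · have h1 : (fromBlocks 0 0 0 (sk k m) : Matrix (Unit ⊕ (Fin m ⊕ Fin m)) _ k).submatrix e e -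
            (2⁻¹ : k) • ((Matrix.of fun i j => Sum.elim (fun _ : Unit => c i)
              (fun _ : Fin m ⊕ Fin m => 0) (e j))ᵀ * JR Jr *
              Matrix.of fun i j => Sum.elim (fun _ : Unit => c i)
              (fun _ : Fin m ⊕ Fin m => 0) (e j)) =
            (fromBlocks (Matrix.of fun _ _ => -((2⁻¹ : k) * (c ⬝ᵥ (JR Jr *ᵥ c)))) 0 0
              (sk k m) : Matrix (Unit ⊕ (Fin m ⊕ Fin m)) _ k).submatrix e e := by
          ext i j
          simp only [Matrix.sub_apply, Matrix.smul_apply, submatrix_apply, smul_eq_mul]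
          rw [Matrix.mul_assoc, Matrix.mul_apply]
          simp only [transpose_apply, of_apply, Matrix.mul_apply]
          rcases e i with i' | i' <;> rcases e j with j' | j' <;>
            simp [dotProduct, mulVec]
        rw [h1, det_submatrix_equiv_self, det_fromBlocks_zero₂₁, det_unique]
        refine mul_ne_zero ?_ (sk_det m)
        simp only [of_apply]
        exact neg_ne_zero.mpr (mul_ne_zero (by norm_num) hc)

end Pool.Agent.Helper97.CG
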