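import Pool.Agent.Helper97.CG.Skw

/-!
# Identities for an isometry with two invertible blocks
-/

namespace Pool.Agent.Helper97.CG

open Matrix

universe u

set_option linter.unusedSectionVars false

section Aux

variable {k : Type u} [Field k] {e w : Type*} [Fintype e] [DecidableEq e] [Fintype w]
  [DecidableEq w]

/-- the block equations of an isometry -/
lemma iso_blocks (ε : k) (JN : Matrix w w k) (y : Matrix (e ⊕ (e ⊕ w)) (e ⊕ (e ⊕ w)) k)
    (hy : yᵀ * LJ e ε JN * y = LJ e ε JN) :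
    ((b11 y)ᵀ * b21 y + ε • ((b21 y)ᵀ * b11 y) + (b31 y)ᵀ * (JN * b31 y) = 0) ∧
    ((b11 y)ᵀ * b22 y + ε • ((b21 y)ᵀ * b12 y) + (b31 y)ᵀ * (JN * b32 y) = 1) ∧
    ((b11 y)ᵀ * b23 y + ε • ((b21 y)ᵀ * b13 y) + (b31 y)ᵀ * (JN * b33 y) = 0) ∧
    ((b12 y)ᵀ * b22 y + ε • ((b22 y)ᵀ * b12 y) + (b32 y)ᵀ * (JN * b32 y) = 0) ∧
    ((b12 y)ᵀ * b23 y + ε • ((b22 y)ᵀ * b13 y) + (b32 y)ᵀ * (JN * b33 y) = 0) ∧
    ((b13 y)ᵀ * b23 y + ε • ((b23 y)ᵀ * b13 y) + (b33 y)ᵀ * (JN * b33 y) = JN) := by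
  have h := hy
  rw [← mk3_eta y, mk3_transpose, LJ, mk3_mul, mk3_mul] at h
  obtain ⟨⟨e11, e12, e13⟩, ⟨e21, e22, e23⟩, ⟨e31, e32, e33⟩⟩ := mk3_inj h
  simp only [Matrix.mul_zero, zero_add, add_zero, Matrix.mul_one,
    Matrix.smul_mul, Matrix.mul_smul, Matrix.mul_assoc] at e11 e12 e13 e21 e22 e23 e31 e32 e33
  refine ⟨?_, ?_, ?_, ?_, ?_, ?_⟩
  · rw [← e11]; abel
  · rw [← e12]; abel
  · rw [← e13]; abel
  · rw [← e22]; abel
  · rw [← e23]; abel
  · conv_rhs => rw [← e33]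
    abel

lemma cancelL {m : Type*} [Fintype m] (P : Matrix e e k) (M : Matrix e m k) (hP : P.det ≠ 0)
    (h : Pᵀ * M = 0) : M = 0 := by
  have hu : IsUnit Pᵀ.det := by rw [det_transpose]; exact isUnit_iff_ne_zero.2 hP
  rw [← Matrix.nonsing_inv_mul_cancel_left Pᵀ M hu, h, Matrix.mul_zero]

lemma cancelR {m : Type*} [Fintype m] (Q : Matrix e e k) (M : Matrix m e k) (hQ : Q.det ≠ 0)
    (h : M * Q = 0) : M = 0 := by
  have hu : IsUnit Q.det := isUnit_iff_ne_zero.2 hQ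
  rw [← Matrix.mul_nonsing_inv_cancel_right Q M hu, h, Matrix.zero_mul]

variable {ε : k} {JN : Matrix w w k} {A A' : Matrix e e k} {C C' : Matrix w e k}
  {a3 b3 : Matrix e w k} {c3 : Matrix w w k}

lemma iso_third (hε : ε = 1 ∨ ε = -1) (hJ : JNᵀ = ε • JN)
    (hA : A + ε • Aᵀ + Cᵀ * (JN * C) = 0)
    (h13 : b3 + ε • (Aᵀ * a3) + Cᵀ * (JN * c3) = 0)
    (h33 : a3ᵀ * b3 + ε • (b3ᵀ * a3) + c3ᵀ * (JN * c3) = JN) :
    (c3 - C * a3)ᵀ * JN * (c3 - C * a3) = JN := by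
  have t1 : a3ᵀ * b3 + ε • (a3ᵀ * (Aᵀ * a3)) + a3ᵀ * (Cᵀ * (JN * c3)) = 0 := by
    have := congrArg (fun M => a3ᵀ * M) h13
    simpa only [Matrix.mul_add, Matrix.mul_smul, Matrix.mul_zero] using this
  have t2 : b3ᵀ * a3 + ε • (a3ᵀ * (A * a3)) + ε • (c3ᵀ * (JN * (C * a3))) = 0 := by
    have := congrArg (fun M => Mᵀ * a3) h13
    simpa only [Matrix.transpose_add, Matrix.transpose_smul, Matrix.transpose_mul,
      Matrix.transpose_transpose, Matrix.transpose_zero, hJ, Matrix.add_mul, Matrix.smul_mul,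
      Matrix.mul_smul, Matrix.mul_assoc, Matrix.zero_mul] using this
  have t3 : a3ᵀ * (A * a3) + ε • (a3ᵀ * (Aᵀ * a3)) + a3ᵀ * (Cᵀ * (JN * (C * a3))) = 0 := by
    have := congrArg (fun M => a3ᵀ * (M * a3)) hA
    simpa only [Matrix.add_mul, Matrix.mul_add, Matrix.smul_mul, Matrix.mul_smul,
      Matrix.mul_assoc, Matrix.zero_mul, Matrix.mul_zero] using this
  have e : (c3 - C * a3)ᵀ * JN * (c3 - C * a3) = c3ᵀ * (JN * c3) - c3ᵀ * (JN * (C * a3)) -
      a3ᵀ * (Cᵀ * (JN * c3)) + a3ᵀ * (Cᵀ * (JN * (C * a3))) := by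
    simp only [Matrix.transpose_sub, Matrix.transpose_mul, Matrix.sub_mul, Matrix.mul_sub,
      Matrix.mul_assoc]
    abel
  rw [e]
  rcases hε with rfl | rfl
  · linear_combination (norm := module) h33 - t1 - t2 + t3
  · linear_combination (norm := module) h33 - t1 + t2 + t3

lemma iso_gam (hA' : A' + ε • A'ᵀ + C'ᵀ * (JN * C') = 0)
    (h13 : b3 + ε • (Aᵀ * a3) + Cᵀ * (JN * c3) = 0)
    (h23 : b3 + ε • (A'ᵀ * a3) + C'ᵀ * (JN * c3) = 0) :
    (C - C')ᵀ * JN * (c3 - C' * a3) = -((A' + ε • Aᵀ + Cᵀ * JN * C') * a3) := by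
  have t1 : A' * a3 + ε • (A'ᵀ * a3) + C'ᵀ * (JN * (C' * a3)) = 0 := by
    have := congrArg (fun M => M * a3) hA'
    simpa only [Matrix.add_mul, Matrix.smul_mul, Matrix.mul_assoc, Matrix.zero_mul] using this
  have e : (C - C')ᵀ * JN * (c3 - C' * a3) = Cᵀ * (JN * c3) - C'ᵀ * (JN * c3) -
      Cᵀ * (JN * (C' * a3)) + C'ᵀ * (JN * (C' * a3)) := by
    simp only [Matrix.transpose_sub, Matrix.sub_mul, Matrix.mul_sub, Matrix.mul_assoc]
    abel
  rw [e]
  simp only [Matrix.add_mul, Matrix.smul_mul, Matrix.mul_assoc]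
  linear_combination (norm := module) h13 - h23 + t1

end Aux

section Beta

variable {k : Type u} [Field k] [CharZero k] {b r : ℕ} {d : Bool} {ε : k}
  {JN : Matrix (Fin r ⊕ Fin r) (Fin r ⊕ Fin r) k}

lemma bA_of (hd : IsSg ε d) (hJ : JNᵀ = ε • JN) (β : BI b r d → k)
    (A : Matrix (Fin b) (Fin b) k) (C : Matrix (Fin r ⊕ Fin r) (Fin b) k) (hC : bC β = C)
    (hβ : (fun p => β (Sum.inl (Sum.inr p))) =
      fun p : KI b d => (A + (2⁻¹ : k) • (Cᵀ * JN * C)) p.1.1 p.1.2)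
    (hA : A + ε • Aᵀ + Cᵀ * (JN * C) = 0) : bA ε JN β = A := by
  have h1 : (A + (2⁻¹ : k) • (Cᵀ * JN * C))ᵀ = -(ε • (A + (2⁻¹ : k) • (Cᵀ * JN * C))) := by
    have h2 : (A + (2⁻¹ : k) • (Cᵀ * JN * C))ᵀ =
        Aᵀ + (2⁻¹ : k) • (ε • (Cᵀ * (JN * C))) := by
      simp only [Matrix.transpose_add, Matrix.transpose_smul, Matrix.transpose_mul,
        Matrix.transpose_transpose, hJ, Matrix.smul_mul, Matrix.mul_smul, Matrix.mul_assoc]
    rw [h2, Matrix.mul_assoc]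
    rcases hd with ⟨_, rfl⟩ | ⟨_, rfl⟩
    · linear_combination (norm := module) -hA
    · linear_combination (norm := module) hA
  have h3 := skw_of hd h1
  have h4 : bA ε JN β = skw ε (fun p => β (Sum.inl (Sum.inr p))) -
      (2⁻¹ : k) • ((bC β)ᵀ * JN * bC β) := by
    unfold bA
    have h5 : JN.map (algebraMap k k) = JN := by
      ext i j
      rfl
    rw [h5]
    rfl
  rw [h4, hβ, hC, h3]
  abel

end Beta

theorem st_W4I (k : Type u) [Field k] [IsAlgClosed k] [CharZero k] (hF : ST_LEVF k) :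
    ST_W4I k := by
  intro b r ε d JN hd hJN y hy h11 h12
  obtain ⟨e11, e12, e13, e22, e23, e33⟩ := iso_blocks ε JN y hy
  have hε := hJN.eps
  have hJ := hJN.symm
  have u11 : IsUnit (b11 y).det := isUnit_iff_ne_zero.2 h11
  have u12 : IsUnit (b12 y).det := isUnit_iff_ne_zero.2 h12
  have hb : b21 y = lA y * b11 y := by
    rw [lA, Matrix.nonsing_inv_mul_cancel_right _ _ u11]
  have hc : b31 y = lC y * b11 y := by
    rw [lC, Matrix.nonsing_inv_mul_cancel_right _ _ u11]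
  have hb' : b22 y = lA' y * b12 y := by
    rw [lA', Matrix.nonsing_inv_mul_cancel_right _ _ u12]
  have hc' : b32 y = lC' y * b12 y := by
    rw [lC', Matrix.nonsing_inv_mul_cancel_right _ _ u12]
  have hA : lA y + ε • (lA y)ᵀ + (lC y)ᵀ * (JN * lC y) = 0 := by
    apply cancelR (b11 y) _ h11
    apply cancelL (b11 y) _ h11
    rw [← e11, hb, hc]
    simp only [Matrix.transpose_mul, Matrix.add_mul, Matrix.mul_add, Matrix.smul_mul,
      Matrix.mul_smul, Matrix.mul_assoc]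
  have hA' : lA' y + ε • (lA' y)ᵀ + (lC' y)ᵀ * (JN * lC' y) = 0 := by
    apply cancelR (b12 y) _ h12
    apply cancelL (b12 y) _ h12
    rw [← e22, hb', hc']
    simp only [Matrix.transpose_mul, Matrix.add_mul, Matrix.mul_add, Matrix.smul_mul,
      Matrix.mul_smul, Matrix.mul_assoc]
  have h13 : b23 y + ε • ((lA y)ᵀ * b13 y) + (lC y)ᵀ * (JN * b33 y) = 0 := by
    apply cancelL (b11 y) _ h11
    rw [← e13, hb, hc]
    simp only [Matrix.transpose_mul, Matrix.mul_add, Matrix.mul_smul, Matrix.mul_assoc]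
  have h23 : b23 y + ε • ((lA' y)ᵀ * b13 y) + (lC' y)ᵀ * (JN * b33 y) = 0 := by
    apply cancelL (b12 y) _ h12
    rw [← e23, hb', hc']
    simp only [Matrix.transpose_mul, Matrix.mul_add, Matrix.mul_smul, Matrix.mul_assoc]
  have hG1 : (b11 y)ᵀ * (lA' y + ε • (lA y)ᵀ + (lC y)ᵀ * JN * lC' y) * b12 y = 1 := by
    rw [← e12, hb, hc, hb', hc']
    simp only [Matrix.transpose_mul, Matrix.add_mul, Matrix.mul_add, Matrix.smul_mul,
      Matrix.mul_smul, Matrix.mul_assoc]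
  have hC1 : bC (lBeta d JN y) = lC y := rfl
  have hC2 : bC (lBeta d JN y ∘ Sum.swap) = lC' y := rfl
  have hA1 : bA ε JN (lBeta d JN y) = lA y := bA_of hd hJ _ _ _ hC1 rfl hA
  have hA2 : bA ε JN (lBeta d JN y ∘ Sum.swap) = lA' y := bA_of hd hJ _ _ _ hC2 rfl hA'
  have hJm : JN.map (algebraMap k k) = JN := by
    ext i j
    rfl
  have hGam : bGam ε JN (lBeta d JN y) =
      lA' y + ε • (lA y)ᵀ + (lC y)ᵀ * JN * lC' y := by
    unfold bGam
    rw [hA1, hA2, hC1, hC2, hJm]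
    rfl
  have hGdet : (bGam ε JN (lBeta d JN y)).det ≠ 0 := by
    intro h0
    have h1 := congrArg Matrix.det hG1
    rw [Matrix.det_mul, Matrix.det_mul, ← hGam, h0, mul_zero, zero_mul, Matrix.det_one] at h1
    exact zero_ne_one h1
  refine ⟨hC1, hC2, hA1, hA2, hGdet, ?_, ?_, ?_, ?_⟩
  · exact iso_third hε hJ hA h13 e33
  · exact iso_third hε hJ hA' h23 e33
  · have h1 := iso_gam hA' h13 h23
    have h2 : lY y = lY' y - (lC y - lC' y) * b13 y := by
      rw [lY, lY', Matrix.sub_mul]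
      abel
    have h3 : (bGam ε JN (lBeta d JN y)).adjugate *
        ((lC y - lC' y)ᵀ * JN * lY' y) = -((bGam ε JN (lBeta d JN y)).det • b13 y) := by
      rw [lY', h1, ← hGam, Matrix.mul_neg, ← Matrix.mul_assoc, Matrix.adjugate_mul,
        Matrix.smul_mul, Matrix.one_mul]
    have h4 : bG ε JN (lBeta d JN y) = (bGam ε JN (lBeta d JN y)).det • 1 +
        (lC y - lC' y) * ((bGam ε JN (lBeta d JN y)).adjugate * ((lC y - lC' y)ᵀ * JN)) := by
      unfold bG bDel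
      rw [hC1, hC2, hJm]
      simp only [Matrix.mul_assoc]
    rw [h4, Matrix.add_mul, Matrix.smul_mul, Matrix.one_mul, Matrix.mul_assoc, Matrix.mul_assoc,
      h3, h2, smul_sub, Matrix.mul_neg, Matrix.mul_smul]
    abel
  · exact (hF b (Fin r ⊕ Fin r) ε JN hJN y hy h11).2.2.2.2

end Pool.Agent.Helper97.CG
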