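import Pool.Agent.Helper97.CG.Stmts

/-!
# Witt cancellation for hermitian matrices
-/

namespace Pool.Agent.Helper97.CG

open Matrix

universe u

section Wit

variable {L : Type u} [Field L] {N : Type*} [Fintype N]

/-- the sesquilinear form of a matrix -/
def hf (θ : L ≃+* L) (F : Matrix N N L) (v w : N → L) : L :=
  v ⬝ᵥ (F *ᵥ (fun i => θ (w i)))

lemma hf_eq_sum (θ : L ≃+* L) (F : Matrix N N L) (v w : N → L) :
    hf θ F v w = ∑ i, ∑ j, v i * F i j * θ (w j) := by
  unfold hf
  simp only [dotProduct, mulVec, Finset.mul_sum, mul_assoc]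

lemma hf_sub_smul_left (θ : L ≃+* L) (F : Matrix N N L) (v z w : N → L) (a : L) :
    hf θ F (v - a • z) w = hf θ F v w - a * hf θ F z w := by
  unfold hf
  rw [sub_dotProduct, smul_dotProduct, smul_eq_mul]

lemma hf_sub_smul_right (θ : L ≃+* L) (F : Matrix N N L) (v z w : N → L) (a : L) :
    hf θ F v (w - a • z) = hf θ F v w - θ a * hf θ F v z := by
  unfold hf
  have h : (fun i => θ ((w - a • z) i)) = (fun i => θ (w i)) - θ a • (fun i => θ (z i)) := by
    funext i
    simp
  rw [h, mulVec_sub, mulVec_smul, dotProduct_sub, dotProduct_smul, smul_eq_mul]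

lemma hf_symm (θ : L ≃+* L) (hθ : ∀ x, θ (θ x) = x) (ε : L) (F : Matrix N N L)
    (hF : Fᵀ = ε • F.map θ) (v w : N → L) : hf θ F w v = ε * θ (hf θ F v w) := by
  have h : ∀ i j, F j i = ε * θ (F i j) := by
    intro i j
    have := congrFun (congrFun hF i) j
    simpa using this
  rw [hf_eq_sum, hf_eq_sum, map_sum, Finset.mul_sum, Finset.sum_comm]
  refine Finset.sum_congr rfl fun i _ => ?_
  rw [map_sum, Finset.mul_sum]
  refine Finset.sum_congr rfl fun j _ => ?_
  rw [map_mul, map_mul, hθ, h i j]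
  ring

lemma mul_map_apply {M : Type*} (θ : L ≃+* L) (F : Matrix N N L) (A B : Matrix N M L) (i j : M) :
    (Aᵀ * F * B.map θ) i j = hf θ F (fun k => A k i) (fun k => B k j) := by
  rw [Matrix.mul_assoc, Matrix.mul_apply]
  rfl

variable [DecidableEq N]

lemma hf_single (θ : L ≃+* L) (F : Matrix N N L) (i j : N) :
    hf θ F (Pi.single i 1) (Pi.single j 1) = F i j := by
  have := mul_map_apply θ F (1 : Matrix N N L) 1 i j
  rw [transpose_one, Matrix.one_mul, Matrix.map_one _ (map_zero θ) (map_one θ), Matrix.mul_one] at this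
  rw [this]
  congr 1 <;> · funext k; simp [Matrix.one_apply, Pi.single_apply]

lemma exists_refl (θ : L ≃+* L) (hθ : ∀ x, θ (θ x) = x) (ε : L) (hε : ε = 1 ∨ ε = -1)
    (F : Matrix N N L) (hF : Fᵀ = ε • F.map θ) (y z : N → L) (h0 : hf θ F y z ≠ 0)
    (hz : hf θ F z z = hf θ F y z + hf θ F z y) :
    ∃ U : Matrix N N L, Uᵀ * F * U.map θ = F ∧ U.det ≠ 0 ∧ U *ᵥ y = y - z := by
  have hεε : ε * ε = 1 := by rcases hε with h | h <;> rw [h] <;> ring
  have hε0 : ε ≠ 0 := by rintro rfl; simp at hεε
  have hs := hf_symm θ hθ ε F hF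
  set w : N → L := F *ᵥ (fun i => θ (z i)) with hw
  set c : L := (hf θ F y z)⁻¹ with hc
  have hc0 : c ≠ 0 := inv_ne_zero h0
  have hθc : θ c * θ (hf θ F y z) = 1 := by rw [← map_mul, hc, inv_mul_cancel₀ h0, map_one]
  have hcc : c * hf θ F y z = 1 := by rw [hc, inv_mul_cancel₀ h0]
  refine ⟨1 - c • vecMulVec z w, ?_, ?_, ?_⟩
  · ext i j
    rw [mul_map_apply]
    have hcol : ∀ i, (fun k => (1 - c • vecMulVec z w : Matrix N N L) k i) =
        Pi.single i 1 - (c * hf θ F (Pi.single i 1) z) • z := by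
      intro i
      have h1 : hf θ F (Pi.single i 1) z = w i := by
        unfold hf
        rw [single_dotProduct, one_mul]
      funext k
      rw [h1]
      simp [Matrix.one_apply, Pi.single_apply, vecMulVec_apply]
      ring
    rw [hcol, hcol, hf_sub_smul_left, hf_sub_smul_right, hf_sub_smul_right, hf_single]
    set a := hf θ F (Pi.single i 1) z
    have h2 : θ (hf θ F (Pi.single j 1) z) = ε * hf θ F z (Pi.single j 1) := by
      rw [hs (Pi.single j 1) z, ← mul_assoc, hεε, one_mul]
    have h3 : θ (hf θ F y z) = ε * hf θ F z y := by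
      rw [hs y z, ← mul_assoc, hεε, one_mul]
    rw [map_mul, h2, hz]
    set b := hf θ F z (Pi.single j 1)
    rw [h3] at hθc
    linear_combination (a * b * c) * hθc + (a * b * ε * θ c) * hcc
  · have h1 : (1 - c • vecMulVec z w : Matrix N N L).det = 1 - c * hf θ F z z := by
      have h2 : (c • vecMulVec z w : Matrix N N L) =
          replicateCol Unit (c • z) * replicateRow Unit w := by
        ext i j
        simp [vecMulVec_apply, Matrix.mul_apply, mul_assoc]
      rw [h2, det_one_sub_mul_comm, det_unique]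
      simp [Matrix.mul_apply, hf, ← hw, dotProduct]
      left
      refine Finset.sum_congr rfl fun i _ => by ring
    rw [h1, hz, mul_add, hcc]
    have h4 : hf θ F z y ≠ 0 := by
      rw [hs y z]
      exact mul_ne_zero hε0 (by simpa using h0)
    have h5 : 1 - (1 + c * hf θ F z y) = -(c * hf θ F z y) := by ring
    rw [h5]
    exact neg_ne_zero.mpr (mul_ne_zero hc0 h4)
  · rw [sub_mulVec, one_mulVec, smul_mulVec, vecMulVec_mulVec]
    have h1 : w ⬝ᵥ y = hf θ F y z := by
      rw [dotProduct_comm]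
      rfl
    rw [h1]
    congr 1
    funext i
    simp only [Pi.smul_apply, smul_eq_mul, MulOpposite.smul_eq_mul_unop, MulOpposite.unop_op]
    rw [mul_comm (z i), ← mul_assoc, hcc, one_mul]

end Wit

section Step

variable {L : Type u} [Field L]

lemma wit_step (h2 : (2 : L) ≠ 0) (θ : L ≃+* L) (hθ : ∀ x, θ (θ x) = x) (ε : L)
    (hε : ε = 1 ∨ ε = -1) {m : Type*} [Fintype m] [DecidableEq m] (d : L) (hd : d ≠ 0)
    (hdε : d = ε * θ d) (A B : Matrix m m L) (hA : Aᵀ = ε • A.map θ)
    (E : Matrix (Unit ⊕ m) (Unit ⊕ m) L) (hE : E.det ≠ 0)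
    (h : Eᵀ * fromBlocks (diagonal fun _ => d) 0 0 A * E.map θ =
      fromBlocks (diagonal fun _ => d) 0 0 B) :
    ∃ E' : Matrix m m L, E'.det ≠ 0 ∧ E'ᵀ * A * E'.map θ = B := by
  set F : Matrix (Unit ⊕ m) (Unit ⊕ m) L := fromBlocks (diagonal fun _ => d) 0 0 A with hFdef
  have hF : Fᵀ = ε • F.map θ := by
    rw [hFdef, fromBlocks_transpose, fromBlocks_map, fromBlocks_smul, hA, diagonal_transpose]
    congr 1
    · ext i j
      simp [← hdε]
    · ext i j; simp
    · ext i j; simp
  set x : Unit ⊕ m → L := Pi.single (Sum.inl ()) 1 with hx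
  set y : Unit ⊕ m → L := fun k => E k (Sum.inl ()) with hy
  have hxx : hf θ F x x = d := by
    rw [hx, hf_single]
    simp [hFdef]
  have hyy : hf θ F y y = d := by
    rw [hy, ← mul_map_apply, h]
    simp
  have hs1 : ∀ s : L, s = 1 ∨ s = -1 → θ s = s := by
    rintro s (rfl | rfl) <;> simp
  obtain ⟨s, hs, h0⟩ : ∃ s : L, (s = 1 ∨ s = -1) ∧ hf θ F y (y - s • x) ≠ 0 := by
    by_contra hcon
    push Not at hcon
    have e1 := hcon 1 (Or.inl rfl)
    have e2 := hcon (-1) (Or.inr rfl)
    rw [hf_sub_smul_right, hyy] at e1 e2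
    rw [hs1 _ (Or.inl rfl)] at e1
    rw [hs1 _ (Or.inr rfl)] at e2
    have : 2 * d = 0 := by linear_combination e1 + e2
    rcases mul_eq_zero.mp this with h' | h'
    · exact h2 h'
    · exact hd h'
  have hss : s * s = 1 := by rcases hs with h | h <;> rw [h] <;> ring
  have hz : hf θ F (y - s • x) (y - s • x) =
      hf θ F y (y - s • x) + hf θ F (y - s • x) y := by
    rw [hf_sub_smul_left, hf_sub_smul_right, hf_sub_smul_right, hf_sub_smul_left, hs1 s hs, hxx, hyy]
    linear_combination d * hss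
  obtain ⟨U, hU, hUd, hUy⟩ := exists_refl θ hθ ε hε F hF y (y - s • x) h0 hz
  have hUy' : U *ᵥ y = s • x := by rw [hUy]; abel
  set W : Matrix (Unit ⊕ m) (Unit ⊕ m) L := s • (U * E) with hW
  have hWF : Wᵀ * F * W.map θ = fromBlocks (diagonal fun _ => d) 0 0 B := by
    have h3 : W.map θ = s • (U.map θ * E.map θ) := by
      rw [hW]
      ext i j
      simp [Matrix.mul_apply, hs1 s hs]
    have h4 : Eᵀ * Uᵀ * F * (U.map θ * E.map θ) = Eᵀ * (Uᵀ * F * U.map θ) * E.map θ := by
      simp only [Matrix.mul_assoc]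
    rw [h3, hW, transpose_smul, transpose_mul, Matrix.smul_mul, Matrix.smul_mul, Matrix.mul_smul,
      smul_smul, hss, one_smul, h4, hU, h]
  have hcol : (fun k => W k (Sum.inl ())) = x := by
    have : (fun k => W k (Sum.inl ())) = s • (U *ᵥ y) := by
      funext k
      simp [hW, Matrix.mul_apply, mulVec, dotProduct, hy]
    rw [this, hUy', smul_smul, hss, one_smul]
  have hWd : W.det ≠ 0 := by
    rw [hW, det_smul, det_mul]
    exact mul_ne_zero (pow_ne_zero _ (by rintro rfl; simp at hss)) (mul_ne_zero hUd hE)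
  have hrow : ∀ j, W (Sum.inl ()) (Sum.inr j) = 0 := by
    intro j
    have e1 : (Wᵀ * F * W.map θ) (Sum.inl ()) (Sum.inr j) = 0 := by rw [hWF]; simp
    rw [mul_map_apply, hcol] at e1
    have e2 : hf θ F x (fun k => W k (Sum.inr j)) = d * θ (W (Sum.inl ()) (Sum.inr j)) := by
      unfold hf
      rw [hx, single_dotProduct, one_mul]
      simp [hFdef, mulVec, dotProduct, Fintype.sum_sum_type]
    rw [e2] at e1
    rcases mul_eq_zero.mp e1 with h' | h'
    · exact absurd h' hd
    · simpa using h'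
  have hWb : W = fromBlocks 1 0 0 W.toBlocks₂₂ := by
    conv_lhs => rw [← fromBlocks_toBlocks W]
    congr 1
    · ext i j
      have := congrFun hcol (Sum.inl i)
      simpa [toBlocks₁₁, hx] using this
    · ext i j
      exact hrow j
    · ext i j
      have := congrFun hcol (Sum.inr i)
      simpa [toBlocks₂₁, hx] using this
  refine ⟨W.toBlocks₂₂, ?_, ?_⟩
  · rw [hWb, det_fromBlocks_zero₂₁, det_one, one_mul] at hWd
    exact hWd
  · rw [hWb, fromBlocks_transpose, fromBlocks_map, hFdef, fromBlocks_multiply,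
      fromBlocks_multiply] at hWF
    have := (fromBlocks_inj.mp hWF).2.2.2
    simpa using this

/-- reindexing -/
def wE (b : ℕ) (n : Type*) : Unit ⊕ (Fin b ⊕ n) ≃ Fin (b + 1) ⊕ n where
  toFun := Sum.elim (fun _ => Sum.inl 0) (Sum.elim (fun i => Sum.inl i.succ) Sum.inr)
  invFun := Sum.elim (Fin.cases (Sum.inl ()) (fun i => Sum.inr (Sum.inl i)))
    (fun x => Sum.inr (Sum.inr x))
  left_inv := by
    rintro (_ | i | x) <;> simp
  right_inv := by
    rintro (i | x)
    · refine Fin.cases ?_ (fun i => ?_) i <;> simp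
    · simp

lemma wE_blocks {b : ℕ} {n : Type*} [DecidableEq n] (D : Fin (b + 1) → L) (H : Matrix n n L) :
    (fromBlocks (diagonal D) 0 0 H).submatrix (wE b n) (wE b n) =
      fromBlocks (diagonal fun _ => D 0) 0 0
        (fromBlocks (diagonal fun i => D i.succ) 0 0 H) := by
  ext i j
  rcases i with i | i | i <;> rcases j with j | j | j <;>
    simp [wE, diagonal_apply, Fin.succ_inj, (Fin.succ_ne_zero _).symm, Fin.succ_ne_zero]

end Step

theorem st_WIT : ST_WIT.{u} := by
  intro L _ _ θ hθ ε hε b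
  have h2 : (2 : L) ≠ 0 := two_ne_zero
  induction b with
  | zero =>
    intro n _ _ D H₁ H₂ _ _ _ E hE h
    have hEb : E = fromBlocks E.toBlocks₁₁ 0 0 E.toBlocks₂₂ := by
      conv_lhs => rw [← fromBlocks_toBlocks E]
      congr 1
      · ext i j; exact i.elim0
      · ext i j; exact j.elim0
    refine ⟨E.toBlocks₂₂, ?_, ?_⟩
    · rw [hEb, det_fromBlocks_zero₂₁, det_isEmpty, one_mul] at hE
      exact hE
    · rw [hEb, fromBlocks_transpose, fromBlocks_map, fromBlocks_multiply,
        fromBlocks_multiply] at h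
      have := (fromBlocks_inj.mp h).2.2.2
      simpa using this
  | succ b ih =>
    intro n _ _ D H₁ H₂ hD h1 h2' E hE h
    have hA : (fromBlocks (diagonal fun i : Fin b => D i.succ) 0 0 H₁)ᵀ =
        ε • (fromBlocks (diagonal fun i : Fin b => D i.succ) 0 0 H₁).map θ := by
      rw [fromBlocks_transpose, fromBlocks_map, fromBlocks_smul, h1, diagonal_transpose]
      congr 1
      · ext i j
        by_cases hij : i = j
        · subst hij
          simp only [diagonal_apply_eq, Matrix.smul_apply, map_apply, smul_eq_mul]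
          exact (hD i.succ).2
        · simp [diagonal_apply_ne _ hij]
      · ext i j; simp
      · ext i j; simp
    obtain ⟨E', hE', hE''⟩ := wit_step h2 θ hθ ε hε (D 0) (hD 0).1 (hD 0).2
      (fromBlocks (diagonal fun i : Fin b => D i.succ) 0 0 H₁)
      (fromBlocks (diagonal fun i : Fin b => D i.succ) 0 0 H₂) hA
      (E.submatrix (wE b n) (wE b n)) (by rw [det_submatrix_equiv_self]; exact hE) (by
        rw [← wE_blocks, ← wE_blocks, ← h, transpose_submatrix, ← submatrix_map,
          submatrix_mul_equiv, submatrix_mul_equiv])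
    exact ih n (fun i => D i.succ) H₁ H₂ (fun j => hD j.succ) h1 h2' E' hE' hE''

end Pool.Agent.Helper97.CG
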